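import Pool.Agent.Helper82.PN.GoalsF
import Pool.Agent.Helper82.PN.Hull

/-!
PROJECT PN, packet CLSG: a limit of simplices which is a body is a simplex.
-/

open MeasureTheory Set Filter Topology
open scoped ENNReal
open Pool.Agent.Helper47.AQ Pool.Agent.Helper82.PN

noncomputable section

namespace Pool.Agent.Helper44.PN

/-- A simplex is the hull of `n + 1` points. -/
theorem simplex_fin {ι : Type} [Fintype ι] {S : Set (ι → ℝ)} (hS : IsSimplex S) :
    ∃ w : Fin (Fintype.card ι + 1) → ι → ℝ, S = KH w := by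
  obtain ⟨hint, σ, hσ, v, hv, rfl⟩ := hS
  have htop : affineSpan ℝ (range v) = ⊤ := by
    rw [← interior_convexHull_nonempty_iff_affineSpan_eq_top]
    exact hint
  let b : AffineBasis σ ℝ (ι → ℝ) := ⟨v, hv, htop⟩
  have hc : Fintype.card σ = Fintype.card ι + 1 := by
    rw [b.card_eq_finrank_add_one, Module.finrank_fintype_fun_eq_card]
  let e : Fin (Fintype.card ι + 1) ≃ σ := (Fintype.equivFinOfCardEq hc).symm
  refine ⟨v ∘ e, ?_⟩
  unfold KH
  rw [e.surjective.range_comp]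

theorem near_trans {ι : Type} [Fintype ι] {a b : ℝ} {K L M : Set (ι → ℝ)} (h1 : Near a K L)
    (h2 : Near b L M) : Near (a + b) K M := by
  constructor
  · intro x hx
    obtain ⟨y, hy, hxy⟩ := h1.1 x hx
    obtain ⟨z, hz, hyz⟩ := h2.1 y hy
    refine ⟨z, hz, ?_⟩
    calc ‖x - z‖ = ‖(x - y) + (y - z)‖ := by rw [sub_add_sub_cancel]
      _ ≤ ‖x - y‖ + ‖y - z‖ := norm_add_le _ _
      _ ≤ a + b := add_le_add hxy hyz
  · intro z hz
    obtain ⟨y, hy, hyz⟩ := h2.2 z hz
    obtain ⟨x, hx, hxy⟩ := h1.2 y hy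
    refine ⟨x, hx, ?_⟩
    calc ‖x - z‖ = ‖(x - y) + (y - z)‖ := by rw [sub_add_sub_cancel]
      _ ≤ ‖x - y‖ + ‖y - z‖ := norm_add_le _ _
      _ ≤ a + b := add_le_add hxy hyz

theorem mem_of_close {ι : Type} [Fintype ι] {C : Set (ι → ℝ)} (hC : IsClosed C) (z : ι → ℝ)
    (h : ∀ ε : ℝ, 0 < ε → ∃ y ∈ C, ‖z - y‖ ≤ ε) : z ∈ C := by
  rw [← hC.closure_eq, Metric.mem_closure_iff]
  intro ε hε
  obtain ⟨y, hy, hzy⟩ := h (ε / 2) (half_pos hε)
  exact ⟨y, hy, by rw [dist_eq_norm]; linarith⟩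

theorem gCLSG : CLSG := by
  intro ι _ K hK hS
  classical
  have H : ∀ k : ℕ, ∃ w : Fin (Fintype.card ι + 1) → ι → ℝ, Near (1 / ((k : ℝ) + 1)) K (KH w) := by
    intro k
    obtain ⟨S, hS1, hS2⟩ := hS (1 / ((k : ℝ) + 1)) (by positivity)
    obtain ⟨w, rfl⟩ := simplex_fin hS1
    exact ⟨w, hS2⟩
  choose w hw using H
  obtain ⟨R, hR⟩ := hK.comp.isBounded.exists_norm_le
  have hb : ∀ k, w k ∈ Metric.closedBall (0 : Fin (Fintype.card ι + 1) → ι → ℝ) (|R| + 1) := by
    intro k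
    rw [mem_closedBall_zero_iff, pi_norm_le_iff_of_nonneg (by positivity)]
    intro i
    obtain ⟨x, hx, hxw⟩ := (hw k).2 (w k i) (subset_convexHull ℝ _ (mem_range_self i))
    have h1 : ‖w k i‖ ≤ ‖x‖ + ‖x - w k i‖ := by
      calc ‖w k i‖ = ‖x - (x - w k i)‖ := by rw [sub_sub_cancel]
        _ ≤ ‖x‖ + ‖x - w k i‖ := norm_sub_le _ _
    have h2 : 1 / ((k : ℝ) + 1) ≤ 1 := by
      rw [div_le_one (by positivity)]
      have : (0 : ℝ) ≤ k := Nat.cast_nonneg k
      linarith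
    have h3 := hR x hx
    have h4 := le_abs_self R
    linarith
  obtain ⟨w', -, φ, hφ, hlim⟩ := (isCompact_closedBall _ _).tendsto_subseq hb
  have hclose : ∀ ε : ℝ, 0 < ε → Near ε K (KH w') := by
    intro ε hε
    have h1 : ∀ᶠ k in atTop, ‖w (φ k) - w'‖ ≤ ε / 2 := by
      have h2 := Metric.tendsto_nhds.1 hlim (ε / 2) (half_pos hε)
      filter_upwards [h2] with k hk
      rw [dist_eq_norm] at hk
      exact hk.le
    have h2 : ∀ᶠ k in atTop, 1 / ((φ k : ℝ) + 1) ≤ ε / 2 := by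
      have h3 : Tendsto (fun k : ℕ => 1 / ((φ k : ℝ) + 1)) atTop (𝓝 0) :=
        (tendsto_one_div_add_atTop_nhds_zero_nat (𝕜 := ℝ)).comp hφ.tendsto_atTop
      exact (h3.eventually_lt_const (half_pos hε)).mono fun k hk => hk.le
    obtain ⟨k, hk1, hk2⟩ := (h1.and h2).exists
    have h3 : Near (ε / 2) K (KH (w (φ k))) := by
      refine ⟨fun x hx => ?_, fun y hy => ?_⟩
      · obtain ⟨y, hy, hxy⟩ := (hw (φ k)).1 x hx
        exact ⟨y, hy, hxy.trans hk2⟩
      · obtain ⟨x, hx, hxy⟩ := (hw (φ k)).2 y hy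
        exact ⟨x, hx, hxy.trans hk2⟩
    have h4 : Near (ε / 2) (KH (w (φ k))) (KH w') :=
      near_KH fun i => (norm_le_pi_norm (w (φ k) - w') i).trans hk1
    have h5 := near_trans h3 h4
    rwa [add_halves] at h5
  have hKw : K = KH w' := by
    apply Subset.antisymm
    · intro z hz
      refine mem_of_close ?_ z fun ε hε => (hclose ε hε).1 z hz
      exact (finite_range w').isClosed_convexHull ℝ
    · refine convexHull_min ?_ hK.conv
      rintro _ ⟨i, rfl⟩
      refine mem_of_close hK.comp.isClosed _ fun ε hε => ?_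
      obtain ⟨x, hx, hxy⟩ := (hclose ε hε).2 (w' i) (subset_convexHull ℝ _ (mem_range_self i))
      exact ⟨x, hx, by rwa [norm_sub_rev]⟩
  refine ⟨hK.int, Fin (Fintype.card ι + 1), inferInstance, w', ?_, hKw⟩
  have htop : affineSpan ℝ (range w') = ⊤ := by
    rw [← interior_convexHull_nonempty_iff_affineSpan_eq_top]
    have h1 := hK.int
    rw [hKw] at h1
    exact h1
  rw [affineIndependent_iff_finrank_vectorSpan_eq ℝ w' (n := Fintype.card ι)
    (by rw [Fintype.card_fin])]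
  rw [← direction_affineSpan, htop, AffineSubspace.direction_top, finrank_top,
    Module.finrank_fintype_fun_eq_card]

end Pool.Agent.Helper44.PN
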