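import Pool.Agent.Helper82.PN.GoalsR

/-!
# Project PN (MP_6fb600_gt): goal REVF
-/

set_option autoImplicit false

open MeasureTheory Set
open scoped ENNReal Topology
open Pool.Agent.Helper82.PN

noncomputable section

namespace Pool.Agent.Helper44.PN

/-- The right half of the superlevel sets of a concave function. -/
theorem half (f : ℝ → ℝ) (x₀ M : ℝ) (hx₀ : x₀ ∈ Icc (0 : ℝ) 1) (hM : 0 < M) (hf0 : f x₀ = M)
    (hmax : ∀ x ∈ Icc (0 : ℝ) 1, f x ≤ M) (hconc : ConcaveOn ℝ (Icc 0 1) f)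
    (hcont : ContinuousOn f (Icc 0 1)) (hnn : ∀ x ∈ Icc (0 : ℝ) 1, 0 ≤ f x) :
    ∃ R : ℝ → ℝ, Prof R ∧ 1 - x₀ ≤ R 0 ∧ ∀ s ∈ Icc (0 : ℝ) 1, ∀ y : ℝ, 0 ≤ y →
      (y ≤ R s ↔ x₀ + y ≤ 1 ∧ M * s ≤ f (x₀ + y)) := by
  obtain ⟨hx0, hx1⟩ := hx₀
  -- the sets
  set S : ℝ → Set ℝ := fun s => {x | x ∈ Icc x₀ 1 ∧ M * s ≤ f x} with hS
  have hSbdd : ∀ s, BddAbove (S s) := fun s => ⟨1, fun x hx => hx.1.2⟩
  have hSne : ∀ s ∈ Icc (0 : ℝ) 1, (S s).Nonempty := by
    intro s hs
    refine ⟨x₀, ⟨le_refl _, hx1⟩, ?_⟩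
    rw [hf0]
    nlinarith [hs.2]
  have hScl : ∀ s, IsClosed (S s) := by
    intro s
    have h1 : ContinuousOn f (Icc x₀ 1) := hcont.mono (Icc_subset_Icc_left hx0)
    have h2 : S s = Icc x₀ 1 ∩ f ⁻¹' (Ici (M * s)) := by
      ext x
      rfl
    rw [h2]
    exact h1.preimage_isClosed_of_isClosed isClosed_Icc isClosed_Ici
  set R : ℝ → ℝ := fun s => sSup (S s) - x₀ with hR
  have hmem : ∀ s ∈ Icc (0 : ℝ) 1, x₀ + R s ∈ S s := by
    intro s hs
    have h := (hScl s).csSup_mem (hSne s hs) (hSbdd s)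
    have h2 : x₀ + R s = sSup (S s) := by
      rw [hR]
      ring
    rw [h2]
    exact h
  have hiff : ∀ s ∈ Icc (0 : ℝ) 1, ∀ y : ℝ, 0 ≤ y →
      (y ≤ R s ↔ x₀ + y ≤ 1 ∧ M * s ≤ f (x₀ + y)) := by
    intro s hs y hy
    constructor
    · intro h
      have h1 := hmem s hs
      have h3 : x₀ + R s ≤ 1 := h1.1.2
      have h4 : M * s ≤ f (x₀ + R s) := h1.2
      refine ⟨by linarith, ?_⟩
      rcases eq_or_lt_of_le hy with hy0 | hy0
      · rw [← hy0, add_zero, hf0]
        nlinarith [hs.2]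
      · have hRpos : 0 < R s := lt_of_lt_of_le hy0 h
        have h5 : (1 - y / R s) • f x₀ + (y / R s) • f (x₀ + R s) ≤
            f ((1 - y / R s) • x₀ + (y / R s) • (x₀ + R s)) :=
          hconc.2 ⟨hx0, hx1⟩ ⟨by linarith, h3⟩
            (by rw [sub_nonneg, div_le_one hRpos]; exact h) (by positivity) (by ring)
        have h6 : (1 - y / R s) • x₀ + (y / R s) • (x₀ + R s) = x₀ + y := by
          simp only [smul_eq_mul]
          field_simp
          ring
        rw [h6] at h5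
        simp only [smul_eq_mul] at h5
        have h7 : 0 ≤ y / R s := by positivity
        have h8 : y / R s ≤ 1 := by rw [div_le_one hRpos]; exact h
        have h9 : M * s ≤ M := by nlinarith [hs.2]
        rw [hf0] at h5
        nlinarith [mul_le_mul_of_nonneg_left h9 (sub_nonneg.2 h8),
          mul_le_mul_of_nonneg_left h4 h7]
    · rintro ⟨h1, h2⟩
      have h3 : x₀ + y ≤ sSup (S s) := le_csSup (hSbdd s) ⟨⟨by linarith, h1⟩, h2⟩
      have h4 : R s = sSup (S s) - x₀ := rfl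
      linarith
  have hRnn : ∀ s ∈ Icc (0 : ℝ) 1, 0 ≤ R s := by
    intro s hs
    have h := (hmem s hs).1.1
    linarith
  have hR1 : ∀ s ∈ Icc (0 : ℝ) 1, x₀ + R s ≤ 1 := fun s hs => (hmem s hs).1.2
  have hRf : ∀ s ∈ Icc (0 : ℝ) 1, M * s ≤ f (x₀ + R s) := fun s hs => (hmem s hs).2
  refine ⟨R, ⟨⟨convex_Icc _ _, ?_⟩, ?_, hRnn, ?_⟩, ?_, hiff⟩
  · -- concave
    intro s hs t ht a b ha hb hab
    have h1 := hR1 s hs
    have h2 := hR1 t ht
    have h3 := hRf s hs
    have h4 := hRf t ht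
    have h5 := hRnn s hs
    have h6 := hRnn t ht
    have hst : a • s + b • t ∈ Icc (0 : ℝ) 1 := convex_Icc _ _ hs ht ha hb hab
    rw [hiff _ hst _ (by simp only [smul_eq_mul]; positivity)]
    have h7 : x₀ + (a • R s + b • R t) = a • (x₀ + R s) + b • (x₀ + R t) := by
      simp only [smul_eq_mul]
      have : x₀ = (a + b) * x₀ := by rw [hab, one_mul]
      linear_combination this
    rw [h7]
    constructor
    · simp only [smul_eq_mul]
      nlinarith
    · have h8 : a • f (x₀ + R s) + b • f (x₀ + R t) ≤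
          f (a • (x₀ + R s) + b • (x₀ + R t)) :=
        hconc.2 ⟨by linarith, h1⟩ ⟨by linarith, h2⟩ ha hb hab
      refine le_trans ?_ h8
      simp only [smul_eq_mul]
      nlinarith [mul_le_mul_of_nonneg_left h3 ha, mul_le_mul_of_nonneg_left h4 hb]
  · -- antitone
    intro s hs t ht hst
    rw [hiff s hs (R t) (hRnn t ht)]
    refine ⟨hR1 t ht, le_trans ?_ (hRf t ht)⟩
    nlinarith
  · -- continuous
    intro s₀ hs₀
    rw [ContinuousWithinAt, tendsto_order]
    constructor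
    · intro a ha
      rcases lt_or_ge a 0 with ha0 | ha0
      · filter_upwards [self_mem_nhdsWithin] with s hs
        exact lt_of_lt_of_le ha0 (hRnn s hs)
      · have hRpos : 0 < R s₀ := lt_of_le_of_lt ha0 ha
        set y : ℝ := (a + R s₀) / 2 with hy
        have hay : a < y := by rw [hy]; linarith
        have hyR : y < R s₀ := by rw [hy]; linarith
        have hy0 : 0 ≤ y := by linarith
        have h1 := hR1 s₀ hs₀
        have h4 := hRf s₀ hs₀
        have hl0 : 0 ≤ y / R s₀ := by positivity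
        have hl1 : y / R s₀ < 1 := by rw [div_lt_one hRpos]; exact hyR
        have h5 : (1 - y / R s₀) • f x₀ + (y / R s₀) • f (x₀ + R s₀) ≤
            f ((1 - y / R s₀) • x₀ + (y / R s₀) • (x₀ + R s₀)) :=
          hconc.2 ⟨hx0, hx1⟩ ⟨by linarith, h1⟩ (by linarith) hl0 (by ring)
        have h6 : (1 - y / R s₀) • x₀ + (y / R s₀) • (x₀ + R s₀) = x₀ + y := by
          simp only [smul_eq_mul]
          field_simp
          ring
        rw [h6] at h5
        simp only [smul_eq_mul] at h5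
        rw [hf0] at h5
        have h7 : M * (s₀ + (1 - y / R s₀) * (1 - s₀)) ≤ f (x₀ + y) := by
          nlinarith [mul_le_mul_of_nonneg_left h4 hl0]
        have hev : ∀ᶠ s in 𝓝[Icc 0 1] s₀, M * s ≤ f (x₀ + y) := by
          rcases lt_or_eq_of_le hs₀.2 with hlt | heq
          · have h8 : M * s₀ < f (x₀ + y) := by
              refine lt_of_lt_of_le ?_ h7
              have : 0 < (1 - y / R s₀) * (1 - s₀) := mul_pos (by linarith) (by linarith)
              nlinarith
            have h9 : Filter.Tendsto (fun s : ℝ => M * s) (𝓝[Icc 0 1] s₀) (𝓝 (M * s₀)) :=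
              ((continuous_const.mul continuous_id).tendsto s₀).mono_left nhdsWithin_le_nhds
            exact (h9.eventually (gt_mem_nhds h8)).mono fun s hs => le_of_lt hs
          · filter_upwards [self_mem_nhdsWithin] with s hs
            rw [heq] at h7
            have : M * (1 + (1 - y / R s₀) * (1 - 1)) = M := by ring
            have h8 := hs.2
            have h9 : M ≤ f (x₀ + y) := by
              rw [heq] at this
              linarith
            nlinarith
        filter_upwards [hev, self_mem_nhdsWithin] with s hs hs'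
        have h8 : x₀ + y ≤ 1 := by linarith
        exact lt_of_lt_of_le hay ((hiff s hs' y hy0).2 ⟨h8, hs⟩)
    · intro a ha
      have ha0 : 0 ≤ a := le_of_lt (lt_of_le_of_lt (hRnn s₀ hs₀) ha)
      rcases lt_or_ge 1 (x₀ + a) with h1 | h1
      · filter_upwards [self_mem_nhdsWithin] with s hs
        have := hR1 s hs
        linarith
      · have h2 : f (x₀ + a) < M * s₀ := by
          by_contra hcon
          exact absurd ((hiff s₀ hs₀ a ha0).2 ⟨h1, not_lt.1 hcon⟩) (not_le.2 ha)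
        have h9 : Filter.Tendsto (fun s : ℝ => M * s) (𝓝[Icc 0 1] s₀) (𝓝 (M * s₀)) :=
          ((continuous_const.mul continuous_id).tendsto s₀).mono_left nhdsWithin_le_nhds
        filter_upwards [h9.eventually (lt_mem_nhds h2), self_mem_nhdsWithin] with s hs hs'
        by_contra hcon
        exact absurd ((hiff s hs' a ha0).1 (not_lt.1 hcon)).2 (not_le.2 hs)
  · rw [hiff 0 ⟨le_refl _, zero_le_one⟩ (1 - x₀) (by linarith)]
    refine ⟨by linarith, ?_⟩
    rw [mul_zero]
    exact hnn _ ⟨by linarith, by linarith⟩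

/-- the linear part of the affine map -/
def lin (ι : Type) (M : ℝ) (hM : M ≠ 0) : (ι ⊕ Unit → ℝ) ≃ₗ[ℝ] (ι ⊕ Unit → ℝ) :=
  LinearEquiv.piCongrRight fun i : ι ⊕ Unit =>
    LinearEquiv.smulOfNeZero ℝ ℝ (Sum.elim (fun _ => M) (fun _ => 1) i : ℝ) (by
      rcases i with i | i
      · exact hM
      · exact one_ne_zero)

/-- the affine map -/
def aff (ι : Type) (M x₀ : ℝ) (hM : M ≠ 0) : (ι ⊕ Unit → ℝ) ≃ᵃ[ℝ] (ι ⊕ Unit → ℝ) :=
  (lin ι M hM).toAffineEquiv.trans
    (AffineEquiv.constVAdd ℝ _ (Sum.elim (fun _ => 0) (fun _ => x₀) : ι ⊕ Unit → ℝ))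

theorem aff_inl (ι : Type) (M x₀ : ℝ) (hM : M ≠ 0) (z : ι ⊕ Unit → ℝ) (i : ι) :
    aff ι M x₀ hM z (Sum.inl i) = M * z (Sum.inl i) := by
  simp [aff, lin]

theorem aff_inr (ι : Type) (M x₀ : ℝ) (hM : M ≠ 0) (z : ι ⊕ Unit → ℝ) :
    aff ι M x₀ hM z (Sum.inr ()) = x₀ + z (Sum.inr ()) := by
  simp [aff, lin]

theorem gREVF : REVF := by
  intro ι _ B f hB h0 hconc hcont hnn hpos
  obtain ⟨x₀, hx₀, hmax⟩ := isCompact_Icc.exists_isMaxOn
    (⟨0, ⟨le_refl _, zero_le_one⟩⟩ : (Icc (0 : ℝ) 1).Nonempty) hcont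
  have hmax' : ∀ x ∈ Icc (0 : ℝ) 1, f x ≤ f x₀ := fun x hx => hmax hx
  obtain ⟨x₁, hx₁, hfx₁⟩ := hpos
  have hM : 0 < f x₀ := lt_of_lt_of_le hfx₁ (hmax' x₁ hx₁)
  set M := f x₀ with hMdef
  obtain ⟨R, hRp, hR0, hRiff⟩ := half f x₀ M hx₀ hM rfl hmax' hconc hcont hnn
  have hflip : ∀ x ∈ Icc (0 : ℝ) 1, 1 - x ∈ Icc (0 : ℝ) 1 := by
    intro x hx
    exact ⟨by linarith [hx.2], by linarith [hx.1]⟩
  have hconc' : ConcaveOn ℝ (Icc 0 1) (fun x => f (1 - x)) := by
    refine ⟨convex_Icc _ _, ?_⟩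
    intro x hx y hy a b ha hb hab
    have h := hconc.2 (hflip x hx) (hflip y hy) ha hb hab
    have h2 : a • (1 - x) + b • (1 - y) = 1 - (a • x + b • y) := by
      simp only [smul_eq_mul]
      linear_combination hab
    rw [h2] at h
    exact h
  have hcont' : ContinuousOn (fun x => f (1 - x)) (Icc 0 1) :=
    hcont.comp (continuous_const.sub continuous_id).continuousOn hflip
  obtain ⟨L, hLp, hL0, hLiff⟩ := half (fun x => f (1 - x)) (1 - x₀) M (hflip x₀ hx₀) hM
    (by simp only [sub_sub_cancel]; rfl) (fun x hx => hmax' _ (hflip x hx)) hconc' hcont'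
    (fun x hx => hnn _ (hflip x hx))
  refine ⟨L, R, aff ι M x₀ hM.ne', hLp, hRp, by linarith, ?_⟩
  ext z
  constructor
  · rintro ⟨w, ⟨s, hs, ⟨b, hb, hwb⟩, hwL, hwR⟩, rfl⟩
    have key : x₀ + w (Sum.inr ()) ∈ Icc (0 : ℝ) 1 ∧ M * s ≤ f (x₀ + w (Sum.inr ())) := by
      rcases le_or_gt 0 (w (Sum.inr ())) with hw | hw
      · have h := (hRiff s hs _ hw).1 hwR
        exact ⟨⟨by linarith [hx₀.1], h.1⟩, h.2⟩
      · have h := (hLiff s hs (-(w (Sum.inr ()))) (by linarith)).1 (by linarith)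
        have h2 : 1 - (1 - x₀ + -(w (Sum.inr ()))) = x₀ + w (Sum.inr ()) := by ring
        rw [h2] at h
        exact ⟨⟨by linarith [h.1], by linarith [hx₀.2]⟩, h.2⟩
    obtain ⟨hu, hfu⟩ := key
    refine ⟨?_, ?_⟩
    · rw [aff_inr]
      exact hu
    · rw [aff_inr]
      set u := x₀ + w (Sum.inr ()) with hudef
      rcases eq_or_lt_of_le (hnn u hu) with h | h
      · refine ⟨b, hb, fun i => ?_⟩
        rw [aff_inl, hwb, ← h]
        have h1 : M * s ≤ 0 := by linarith
        have h2 : 0 ≤ M * s := mul_nonneg hM.le hs.1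
        have h3 : M * s = 0 := le_antisymm h1 h2
        rw [← mul_assoc, h3]
      · refine ⟨(M * s / f u) • b, ?_, fun i => ?_⟩
        · exact hB.smul_mem_of_zero_mem h0 hb ⟨div_nonneg (mul_nonneg hM.le hs.1) h.le,
            (div_le_one h).2 hfu⟩
        · rw [aff_inl, hwb, Pi.smul_apply, smul_eq_mul]
          field_simp
  · rintro ⟨hu, b, hb, hzb⟩
    set u := z (Sum.inr ()) with hudef
    have hs : f u / M ∈ Icc (0 : ℝ) 1 :=
      ⟨div_nonneg (hnn u hu) hM.le, (div_le_one hM).2 (hmax' u hu)⟩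
    have hMs : M * (f u / M) = f u := by field_simp
    refine ⟨Sum.elim (fun i => f u / M * b i) (fun _ => u - x₀), ⟨f u / M, hs,
      ⟨b, hb, fun i => rfl⟩, ?_, ?_⟩, ?_⟩
    · change -(L (f u / M)) ≤ u - x₀
      rcases le_or_gt x₀ u with h | h
      · linarith [hLp.nonneg _ hs]
      · have h2 := (hLiff (f u / M) hs (x₀ - u) (by linarith)).2 ⟨by linarith [hu.1], by
          rw [hMs]
          have : 1 - (1 - x₀ + (x₀ - u)) = u := by ring
          rw [this]⟩
        linarith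
    · change u - x₀ ≤ R (f u / M)
      rcases le_or_gt x₀ u with h | h
      · refine (hRiff (f u / M) hs (u - x₀) (by linarith)).2 ⟨by linarith [hu.2], ?_⟩
        rw [hMs]
        have : x₀ + (u - x₀) = u := by ring
        rw [this]
      · linarith [hRp.nonneg _ hs]
    · funext j
      rcases j with i | i
      · rw [aff_inl, hzb]
        change M * (f u / M * b i) = f u * b i
        rw [← mul_assoc, hMs]
      · rw [aff_inr]
        change x₀ + (u - x₀) = z (Sum.inr ())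
        rw [← hudef]
        ring

end Pool.Agent.Helper44.PN
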